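import Pool.Agent.H97.NR.Stmts

set_option linter.unusedVariables false

namespace Pool.NR

theorem kr2_two : ∀ s : ZMod 2, s ≠ 0 → s = 1 := by decide

theorem kr2 (hE : KREStmt) (hU : KRUStmt) (h1 : KR1Stmt) : KR2Stmt := by
  intro p _
  refine ⟨?_, ?_⟩
  · intro hp
    have hc : ringChar (ZMod p) ≠ 2 := by rw [ZMod.ringChar_zmod_n]; exact hp
    obtain ⟨n, hn⟩ := FiniteField.exists_nonsquare hc
    have hn0 : n ≠ 0 := by
      rintro rfl
      exact hn ⟨0, by simp⟩
    obtain ⟨s, t, hs, ht, hst⟩ := hE p 2 n hn0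
    have hsq : ¬ IsSquare s := by
      rintro ⟨u, hu⟩
      apply hn
      refine ⟨u * t, ?_⟩
      rw [hst, hu]
      ring
    have key : ∀ a : ZMod p, a ≠ 0 → IsSquare a ∨ ∃ t : ZMod p, t ≠ 0 ∧ a = s * t ^ 2 := by
      intro a ha
      by_cases h : IsSquare a
      · exact Or.inl h
      · right
        have e1 := quadraticChar_neg_one_iff_not_isSquare.2 h
        have e2 := quadraticChar_neg_one_iff_not_isSquare.2 hsq
        have hs0 : s ≠ 0 := hs.1
        have e3 : quadraticChar (ZMod p) (a * s) = 1 := by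
          rw [map_mul, e1, e2]
          norm_num
        obtain ⟨u, hu⟩ := (quadraticChar_one_iff_isSquare (mul_ne_zero ha hs0)).1 e3
        have hu0 : u ≠ 0 := by
          rintro rfl
          exact mul_ne_zero ha hs0 (by rw [hu]; ring)
        refine ⟨u / s, div_ne_zero hu0 hs0, ?_⟩
        field_simp
        linear_combination hu
    refine ⟨s, hs, ?_, hsq, ?_, key⟩
    · rintro rfl
      exact hsq ⟨1, by ring⟩
    · intro s' hs'
      rcases key s' hs'.1 with ⟨u, hu⟩ | ⟨u, hu0, hu⟩
      · left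
        have hu0 : u ≠ 0 := by
          rintro rfl
          exact hs'.1 (by rw [hu]; ring)
        exact (hU p 2 1 s' u (h1 p 2) hs' hu0 (by rw [hu]; ring)).symm
      · right
        exact (hU p 2 s s' u hs hs' hu0 hu).symm
  · rintro rfl s hs
    exact kr2_two s hs.1

end Pool.NR
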