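import Pool.Agent.H97.NR.Stmts

set_option linter.unusedVariables false

namespace Pool.NR

namespace RB2

universe u

variable {p : ℕ} {R : Type u} [NonUnitalRing R]

theorem S_nat [Fact p.Prime] {v : R} (hv : p • v = 0) (n : ℕ) : n • v = ((n : ZMod p)).val • v := by
  rw [ZMod.val_natCast]
  conv_lhs => rw [← Nat.mod_add_div n p]
  rw [add_smul, mul_comm, mul_smul, hv, smul_zero, add_zero]

theorem S_mul [Fact p.Prime] {v : R} (hv : p • v = 0) (a b : ZMod p) :
    a.val • (b.val • v) = (a * b).val • v := by
  rw [← mul_smul, S_nat hv]
  simp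

theorem S_sum [Fact p.Prime] {v : R} (hv : p • v = 0) (f : Fin 2 → ZMod p) :
    ∑ i, (f i).val • v = (∑ i, f i).val • v := by
  rw [← Finset.sum_smul, S_nat hv]
  simp

theorem main [Fact p.Prime] (π π' : Fin 2 → Fin 2 → ZMod p) (B B' : Fin 2 → Fin 2 → Fin 2 → ZMod p)
    (hR : HasTab p R (tab22 π B)) (G H Gi Hi : Fin 2 → Fin 2 → ZMod p)
    (hG : ∀ m j, ∑ i, Gi i j * G m i = if m = j then (1 : ZMod p) else 0)
    (hH : ∀ m l, ∑ k, Hi k l * H m k = if m = l then (1 : ZMod p) else 0)
    (h1 : ∀ i l, ∑ k, π' i k * H l k = ∑ j, G j i * π j l)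
    (h2 : ∀ i j l, ∑ k, B' k i j * H l k = ∑ a, ∑ b, G a i * G b j * B l a b) :
    HasTab p R (tab22 π' B') := by
  obtain ⟨g, hcl, hP, hM⟩ := hR
  set x : Fin 2 → R := ![g 0, g 1] with hx
  set w : Fin 2 → R := ![g 2, g 3] with hw
  have pw : ∀ l, p • w l = 0 := by
    intro l
    fin_cases l
    · have := hP 2
      simpa [hw, tab22, Fin.sum_univ_four] using this
    · have := hP 3
      simpa [hw, tab22, Fin.sum_univ_four] using this
  have px : ∀ j, p • x j = ∑ l, (π j l).val • w l := by
    intro j
    fin_cases j
    · have := hP 0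
      simpa [hx, hw, tab22, Fin.sum_univ_four, Fin.sum_univ_two] using this
    · have := hP 1
      simpa [hx, hw, tab22, Fin.sum_univ_four, Fin.sum_univ_two] using this
  have xx : ∀ i j, x i * x j = ∑ l, (B l i j).val • w l := by
    intro i j
    fin_cases i <;> fin_cases j
    · have := hM 0 0
      simpa [hx, hw, tab22, Fin.sum_univ_four, Fin.sum_univ_two] using this
    · have := hM 0 1
      simpa [hx, hw, tab22, Fin.sum_univ_four, Fin.sum_univ_two] using this
    · have := hM 1 0
      simpa [hx, hw, tab22, Fin.sum_univ_four, Fin.sum_univ_two] using this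
    · have := hM 1 1
      simpa [hx, hw, tab22, Fin.sum_univ_four, Fin.sum_univ_two] using this
  have xw : ∀ i l, x i * w l = 0 := by
    intro i j
    fin_cases i <;> fin_cases j
    · have := hM 0 2
      simpa [hx, hw, tab22, Fin.sum_univ_four, Fin.sum_univ_two] using this
    · have := hM 0 3
      simpa [hx, hw, tab22, Fin.sum_univ_four, Fin.sum_univ_two] using this
    · have := hM 1 2
      simpa [hx, hw, tab22, Fin.sum_univ_four, Fin.sum_univ_two] using this
    · have := hM 1 3
      simpa [hx, hw, tab22, Fin.sum_univ_four, Fin.sum_univ_two] using this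
  have wx : ∀ l i, w l * x i = 0 := by
    intro i j
    fin_cases i <;> fin_cases j
    · have := hM 2 0
      simpa [hx, hw, tab22, Fin.sum_univ_four, Fin.sum_univ_two] using this
    · have := hM 2 1
      simpa [hx, hw, tab22, Fin.sum_univ_four, Fin.sum_univ_two] using this
    · have := hM 3 0
      simpa [hx, hw, tab22, Fin.sum_univ_four, Fin.sum_univ_two] using this
    · have := hM 3 1
      simpa [hx, hw, tab22, Fin.sum_univ_four, Fin.sum_univ_two] using this
  have ww : ∀ l i, w l * w i = 0 := by
    intro i j
    fin_cases i <;> fin_cases j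
    · have := hM 2 2
      simpa [hx, hw, tab22, Fin.sum_univ_four, Fin.sum_univ_two] using this
    · have := hM 2 3
      simpa [hx, hw, tab22, Fin.sum_univ_four, Fin.sum_univ_two] using this
    · have := hM 3 2
      simpa [hx, hw, tab22, Fin.sum_univ_four, Fin.sum_univ_two] using this
    · have := hM 3 3
      simpa [hx, hw, tab22, Fin.sum_univ_four, Fin.sum_univ_two] using this
  set x' : Fin 2 → R := fun i => ∑ j, (G j i).val • x j with hx'
  set w' : Fin 2 → R := fun k => ∑ l, (H l k).val • w l with hw'
  have pw' : ∀ k, p • w' k = 0 := by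
    intro k
    simp only [hw', Finset.smul_sum]
    apply Finset.sum_eq_zero
    intro l _
    rw [smul_comm, pw, smul_zero]
  have px' : ∀ i, p • x' i = ∑ k, (π' i k).val • w' k := by
    intro i
    calc p • x' i = ∑ j, ∑ l, (G j i * π j l).val • w l := by
          simp only [hx', Finset.smul_sum]
          apply Finset.sum_congr rfl
          intro j _
          rw [smul_comm, px, Finset.smul_sum]
          apply Finset.sum_congr rfl
          intro l _
          exact S_mul (pw l) _ _
      _ = ∑ l, (∑ j, G j i * π j l).val • w l := by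
          rw [Finset.sum_comm]
          exact Finset.sum_congr rfl fun l _ => S_sum (pw l) _
      _ = ∑ l, (∑ k, π' i k * H l k).val • w l := by
          apply Finset.sum_congr rfl
          intro l _
          rw [← h1]
      _ = ∑ k, (π' i k).val • w' k := by
          simp only [← S_sum (pw _)]
          rw [Finset.sum_comm]
          apply Finset.sum_congr rfl
          intro k _
          simp only [hw', Finset.smul_sum]
          apply Finset.sum_congr rfl
          intro l _
          exact (S_mul (pw l) _ _).symm
  have xx' : ∀ i j, x' i * x' j = ∑ k, (B' k i j).val • w' k := by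
    intro i j
    calc x' i * x' j = ∑ a, ∑ b, ∑ l, (G a i * G b j * B l a b).val • w l := by
          simp only [hx']
          rw [Finset.sum_mul]
          apply Finset.sum_congr rfl
          intro a _
          rw [Finset.mul_sum]
          apply Finset.sum_congr rfl
          intro b _
          rw [smul_mul_smul_comm, xx, Finset.smul_sum]
          apply Finset.sum_congr rfl
          intro l _
          rw [mul_smul, S_mul (pw l), S_mul (pw l), mul_assoc]
      _ = ∑ l, (∑ a, ∑ b, G a i * G b j * B l a b).val • w l := by
          have : ∀ l, (∑ a, ∑ b, G a i * G b j * B l a b).val • w l =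
              ∑ a, ∑ b, (G a i * G b j * B l a b).val • w l := by
            intro l
            rw [← S_sum (pw l)]
            apply Finset.sum_congr rfl
            intro a _
            rw [← S_sum (pw l)]
          simp only [this]
          simp only [Fin.sum_univ_two]
          abel
      _ = ∑ l, (∑ k, B' k i j * H l k).val • w l := by
          apply Finset.sum_congr rfl
          intro l _
          rw [← h2]
      _ = ∑ k, (B' k i j).val • w' k := by
          simp only [← S_sum (pw _)]
          rw [Finset.sum_comm]
          apply Finset.sum_congr rfl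
          intro k _
          simp only [hw', Finset.smul_sum]
          apply Finset.sum_congr rfl
          intro l _
          exact (S_mul (pw l) _ _).symm
  have xw' : ∀ i l, x' i * w' l = 0 := by
    intro i k
    simp only [hx', hw', Finset.sum_mul, Finset.mul_sum, smul_mul_smul_comm, xw, smul_zero,
      Finset.sum_const_zero]
  have wx' : ∀ l i, w' l * x' i = 0 := by
    intro i k
    simp only [hx', hw', Finset.sum_mul, Finset.mul_sum, smul_mul_smul_comm, wx, smul_zero,
      Finset.sum_const_zero]
  have ww' : ∀ l i, w' l * w' i = 0 := by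
    intro i k
    simp only [hx', hw', Finset.sum_mul, Finset.mul_sum, smul_mul_smul_comm, ww, smul_zero,
      Finset.sum_const_zero]
  refine ⟨![x' 0, x' 1, w' 0, w' 1], ?_, ?_, ?_⟩
  · set K := AddSubgroup.closure (Set.range ![x' 0, x' 1, w' 0, w' 1]) with hK
    have hx'K : ∀ i, x' i ∈ K := by
      intro i
      apply AddSubgroup.subset_closure
      fin_cases i
      · exact ⟨0, rfl⟩
      · exact ⟨1, rfl⟩
    have hw'K : ∀ i, w' i ∈ K := by
      intro i
      apply AddSubgroup.subset_closure
      fin_cases i
      · exact ⟨2, rfl⟩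
      · exact ⟨3, rfl⟩
    have hwK : ∀ l, w l ∈ K := by
      intro l
      have e : w l = ∑ k, (Hi k l).val • w' k := by
        simp only [hw', Finset.smul_sum]
        rw [Finset.sum_comm]
        have h3 : ∀ m, ∑ k, (Hi k l).val • (H m k).val • w m = (if m = l then (1 : ZMod p) else 0).val • w m := by
          intro m
          rw [← hH m l, ← S_sum (pw m)]
          exact Finset.sum_congr rfl fun k _ => S_mul (pw m) _ _
        simp only [h3]
        have h1v : (1 : ZMod p).val = 1 := ZMod.val_one p
        rw [Finset.sum_eq_single l]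
        · rw [if_pos rfl, h1v, one_smul]
        · intro m _ hm
          rw [if_neg hm]
          simp
        · simp
      rw [e]
      exact sum_mem fun k _ => K.nsmul_mem (hw'K k) _
    have hxK : ∀ j, x j ∈ K := by
      intro j
      have e : ∑ i, (Gi i j).val • x' i = ∑ m, (∑ i, (Gi i j).val * (G m i).val) • x m := by
        simp only [hx', Finset.smul_sum]
        rw [Finset.sum_comm]
        apply Finset.sum_congr rfl
        intro m _
        rw [Finset.sum_smul]
        apply Finset.sum_congr rfl
        intro i _
        rw [mul_smul]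
      have h5 : ∀ m, ∃ q : ℤ, ((∑ i, (Gi i j).val * (G m i).val : ℕ) : ℤ) =
          (if m = j then 1 else 0) + p * q := by
        intro m
        have h4 : ((∑ i, (Gi i j).val * (G m i).val : ℕ) : ZMod p) = if m = j then (1 : ZMod p) else 0 := by
          rw [← hG m j]
          simp only [Nat.cast_sum, Nat.cast_mul, ZMod.natCast_val, ZMod.cast_id', id_eq]
        have h6 : (((∑ i, (Gi i j).val * (G m i).val : ℕ) : ℤ) : ZMod p) =
            (((if m = j then 1 else 0) : ℤ) : ZMod p) := by
          push_cast at h4 ⊢
          rw [h4]
        rw [ZMod.intCast_eq_intCast_iff_dvd_sub] at h6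
        obtain ⟨q, hq⟩ := h6
        exact ⟨-q, by linarith⟩
      have hpx : ∀ m, ∀ q : ℤ, ((p : ℤ) * q) • x m ∈ K := by
        intro m q
        rw [mul_comm, mul_smul]
        apply K.zsmul_mem
        rw [natCast_zsmul, px]
        exact sum_mem fun l _ => K.nsmul_mem (hwK l) _
      have h7 : ∑ m, (∑ i, (Gi i j).val * (G m i).val) • x m - x j ∈ K := by
        have h8 : ∑ m, (∑ i, (Gi i j).val * (G m i).val) • x m - x j =
            ∑ m, ((∑ i, (Gi i j).val * (G m i).val) • x m - (if m = j then (1 : ℤ) else 0) • x m) := by
          rw [Finset.sum_sub_distrib]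
          congr 1
          simp
        rw [h8]
        apply sum_mem
        intro m _
        obtain ⟨q, hq⟩ := h5 m
        rw [← natCast_zsmul, hq, add_smul, add_sub_cancel_left]
        exact hpx m q
      have h9 : ∑ i, (Gi i j).val • x' i ∈ K := sum_mem fun i _ => K.nsmul_mem (hx'K i) _
      rw [e] at h9
      have := K.sub_mem h9 h7
      rwa [sub_sub_cancel] at this
    rw [eq_top_iff, ← hcl, AddSubgroup.closure_le]
    rintro _ ⟨i, rfl⟩
    fin_cases i
    · exact hxK 0
    · exact hxK 1
    · exact hwK 0
    · exact hwK 1
  · intro i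
    fin_cases i
    · have := px' 0
      simpa [tab22, Fin.sum_univ_four, Fin.sum_univ_two] using this
    · have := px' 1
      simpa [tab22, Fin.sum_univ_four, Fin.sum_univ_two] using this
    · have := pw' 0
      simpa [tab22, Fin.sum_univ_four, Fin.sum_univ_two] using this
    · have := pw' 1
      simpa [tab22, Fin.sum_univ_four, Fin.sum_univ_two] using this
  · intro i j
    have a00 := xx' 0 0
    have a01 := xx' 0 1
    have a10 := xx' 1 0
    have a11 := xx' 1 1
    rw [Fin.sum_univ_two] at a00 a01 a10 a11
    rw [Fin.sum_univ_four]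
    fin_cases i <;> fin_cases j
    · simpa [tab22] using a00
    · simpa [tab22] using a01
    · simpa [tab22] using xw' 0 0
    · simpa [tab22] using xw' 0 1
    · simpa [tab22] using a10
    · simpa [tab22] using a11
    · simpa [tab22] using xw' 1 0
    · simpa [tab22] using xw' 1 1
    · simpa [tab22] using wx' 0 0
    · simpa [tab22] using wx' 0 1
    · simpa [tab22] using ww' 0 0
    · simpa [tab22] using ww' 0 1
    · simpa [tab22] using wx' 1 0
    · simpa [tab22] using wx' 1 1
    · simpa [tab22] using ww' 1 0
    · simpa [tab22] using ww' 1 1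

end RB2

theorem rb2 : RB2Stmt := by
  intro p _ R _ π π' B B' hR ⟨G, H, hG, hH, h1, h2⟩
  have hHu : IsUnit H.det := isUnit_iff_ne_zero.2 hH
  have hGu : IsUnit G.det := isUnit_iff_ne_zero.2 hG
  refine RB2.main π π' B B' hR G H (fun a b => (G⁻¹ : Matrix (Fin 2) (Fin 2) (ZMod p)) a b)
    (fun a b => (H⁻¹ : Matrix (Fin 2) (Fin 2) (ZMod p)) a b) ?_ ?_ ?_ ?_
  · intro m j
    have := congrFun (congrFun (Matrix.mul_nonsing_inv G hGu) m) j
    rw [Matrix.mul_apply, Matrix.one_apply] at this
    rw [← this]
    apply Finset.sum_congr rfl
    intro i _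
    ring
  · intro m j
    have := congrFun (congrFun (Matrix.mul_nonsing_inv H hHu) m) j
    rw [Matrix.mul_apply, Matrix.one_apply] at this
    rw [← this]
    apply Finset.sum_congr rfl
    intro i _
    ring
  · intro i l
    rw [← h1]
    exact Finset.sum_congr rfl fun i _ => mul_comm _ _
  · intro i j l
    rw [← h2]
    exact Finset.sum_congr rfl fun i _ => mul_comm _ _

end Pool.NR
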